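import Pool.Agent.H983R2.GC.Defs
import Pool.Agent.H983R2.GC.Chain

set_option autoImplicit false

namespace Pool.Agent.H983R2.GC

open Finset

section MixAux

variable {Ω V C : Type} [Fintype Ω] [Fintype V] [DecidableEq V] [DecidableEq C]

theorem mix_mem_atom (X : Ω → V → C) (S : Finset V) (ω ξ : Ω) :
    ξ ∈ atom X S ω ↔ ∀ v ∈ S, X ξ v = X ω v := by
  unfold atom
  simp

theorem mix_self (X : Ω → V → C) (S : Finset V) (ω : Ω) : ω ∈ atom X S ω := by
  rw [mix_mem_atom]; intro v _; rfl

theorem mix_symm (X : Ω → V → C) (S : Finset V) (ω ξ : Ω) :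
    ξ ∈ atom X S ω ↔ ω ∈ atom X S ξ := by
  rw [mix_mem_atom, mix_mem_atom]
  constructor
  · intro h v hv; exact (h v hv).symm
  · intro h v hv; exact (h v hv).symm

theorem mix_atom_eq (X : Ω → V → C) (S : Finset V) (ω ξ : Ω) (h : ξ ∈ atom X S ω) :
    atom X S ξ = atom X S ω := by
  rw [mix_mem_atom] at h
  ext η
  rw [mix_mem_atom, mix_mem_atom]
  constructor
  · intro h' v hv; rw [h' v hv, h v hv]
  · intro h' v hv; rw [h' v hv, h v hv]

theorem mix_card_pos (X : Ω → V → C) (S : Finset V) (ω : Ω) : 0 < ((atom X S ω).card : ℝ) := by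
  exact_mod_cast Finset.card_pos.mpr ⟨ω, mix_self X S ω⟩

theorem mix_sum_cE_mul (X : Ω → V → C) (S : Finset V) (f g : Ω → ℝ)
    (hg : ∀ ω ξ : Ω, ξ ∈ atom X S ω → g ξ = g ω) :
    ∑ ω, cE X S f ω * g ω = ∑ ω, f ω * g ω := by
  classical
  have h1 : ∀ ω, cE X S f ω * g ω =
      ∑ ξ, if ξ ∈ atom X S ω then f ξ * g ξ / ((atom X S ξ).card : ℝ) else 0 := by
    intro ω
    rw [← Finset.sum_filter]
    have : univ.filter (fun ξ => ξ ∈ atom X S ω) = atom X S ω := by
      ext; simp
    rw [this]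
    unfold cE
    rw [Finset.sum_div, Finset.sum_mul]
    apply Finset.sum_congr rfl
    intro ξ hξ
    rw [hg ω ξ hξ, mix_atom_eq X S ω ξ hξ]
    ring
  simp_rw [h1]
  rw [Finset.sum_comm]
  apply Finset.sum_congr rfl
  intro ξ _
  have h2 : ∀ ω, (if ξ ∈ atom X S ω then f ξ * g ξ / ((atom X S ξ).card : ℝ) else 0) =
      if ω ∈ atom X S ξ then f ξ * g ξ / ((atom X S ξ).card : ℝ) else 0 := by
    intro ω
    by_cases h : ξ ∈ atom X S ω
    · rw [if_pos h, if_pos ((mix_symm X S ω ξ).mp h)]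
    · rw [if_neg h, if_neg (fun h' => h ((mix_symm X S ω ξ).mpr h'))]
  simp_rw [h2]
  rw [← Finset.sum_filter]
  have : univ.filter (fun ω => ω ∈ atom X S ξ) = atom X S ξ := by
    ext; simp
  rw [this, Finset.sum_const, nsmul_eq_mul]
  have := mix_card_pos X S ξ
  field_simp

theorem mix_cE_atom (X : Ω → V → C) (S : Finset V) (f : Ω → ℝ) (ω ξ : Ω) (h : ξ ∈ atom X S ω) :
    cE X S f ξ = cE X S f ω := by
  unfold cE
  rw [mix_atom_eq X S ω ξ h]

theorem mix_sum_cE (X : Ω → V → C) (S : Finset V) (f : Ω → ℝ) :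
    ∑ ω, cE X S f ω = ∑ ω, f ω := by
  have := mix_sum_cE_mul X S f (fun _ => 1) (by intros; rfl)
  simpa using this

theorem mix_cE_pos (X : Ω → V → C) (S : Finset V) (f : Ω → ℝ) (hf : ∀ ω, 0 < f ω) (ω : Ω) :
    0 < cE X S f ω := by
  unfold cE
  apply div_pos _ (mix_card_pos X S ω)
  exact Finset.sum_pos (fun ξ _ => hf ξ) ⟨ω, mix_self X S ω⟩

theorem mix_cE_univ (X : Ω → V → C) (hX : Function.Injective X) (f : Ω → ℝ) (ω : Ω) :
    cE X univ f ω = f ω := by
  have : atom X univ ω = {ω} := by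
    ext ξ
    rw [mix_mem_atom, Finset.mem_singleton]
    constructor
    · intro h
      apply hX
      funext v
      exact h v (Finset.mem_univ v)
    · intro h v _; rw [h]
  unfold cE
  rw [this]; simp

theorem mix_cE_empty (X : Ω → V → C) (f : Ω → ℝ) (ω : Ω) :
    cE X ∅ f ω = (∑ ξ, f ξ) / (Fintype.card Ω : ℝ) := by
  have : atom X ∅ ω = univ := by
    ext ξ
    rw [mix_mem_atom]
    simp
  unfold cE
  rw [this]; simp

/-- entropy of a density (average one). -/
theorem mix_hh_univ (X : Ω → V → C) (hX : Function.Injective X) (f : Ω → ℝ) :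
    hh X f univ = ∑ ω, f ω * Real.log (f ω) := by
  unfold hh
  apply Finset.sum_congr rfl
  intro ω _
  rw [mix_cE_univ X hX]

theorem mix_hh_empty (X : Ω → V → C) (f : Ω → ℝ) (hN : 0 < Fintype.card Ω)
    (hf : ∑ ξ, f ξ = (Fintype.card Ω : ℝ)) : hh X f ∅ = 0 := by
  unfold hh
  apply Finset.sum_eq_zero
  intro ω _
  rw [mix_cE_empty, hf, div_self (by positivity), Real.log_one, mul_zero]

theorem mix_hh_cE (X : Ω → V → C) (S : Finset V) (f : Ω → ℝ) :
    hh X f S = ∑ ω, cE X S f ω * Real.log (cE X S f ω) := by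
  unfold hh
  rw [mix_sum_cE_mul X S f (fun ω => Real.log (cE X S f ω))]
  intro ω ξ h
  rw [mix_cE_atom X S f ω ξ h]

/-- the averaging operator -/
noncomputable def mixP (X : Ω → V → C) (f : Ω → ℝ) (ω : Ω) : ℝ :=
  (∑ v : V, cE X (univ.erase v) f ω) / (Fintype.card V : ℝ)

theorem mixP_pos (X : Ω → V → C) (hV : 0 < Fintype.card V) (f : Ω → ℝ) (hf : ∀ ω, 0 < f ω)
    (ω : Ω) : 0 < mixP X f ω := by
  unfold mixP
  apply div_pos _ (by exact_mod_cast hV)
  have : Nonempty V := Fintype.card_pos_iff.mp hV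
  exact Finset.sum_pos (fun v _ => mix_cE_pos X _ f hf ω) Finset.univ_nonempty

theorem mixP_sum (X : Ω → V → C) (hV : 0 < Fintype.card V) (f : Ω → ℝ) :
    ∑ ω, mixP X f ω = ∑ ω, f ω := by
  unfold mixP
  rw [← Finset.sum_div, Finset.sum_comm]
  simp_rw [mix_sum_cE]
  rw [Finset.sum_const, nsmul_eq_mul, Finset.card_univ]
  have : (0 : ℝ) < Fintype.card V := by exact_mod_cast hV
  field_simp

theorem mix_step (X : Ω → V → C) (hX : Function.Injective X) (hN : 0 < Fintype.card Ω)
    (hV : 0 < Fintype.card V) (C₁ : ℝ) (hC₁ : 1 ≤ C₁)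
    (hfac : ∀ f : Ω → ℝ, (∀ σ, 0 < f σ) →
        hh X f univ - hh X f ∅ ≤ C₁ * ∑ v, (hh X f univ - hh X f (univ.erase v)))
    (f : Ω → ℝ) (hf : ∀ ω, 0 < f ω) (hf1 : ∑ ω, f ω = (Fintype.card Ω : ℝ)) :
    ∑ ω, mixP X f ω * Real.log (mixP X f ω) ≤
      (1 - 1 / (C₁ * (Fintype.card V : ℝ))) * ∑ ω, f ω * Real.log (f ω) := by
  have hn : (0 : ℝ) < Fintype.card V := by exact_mod_cast hV
  have : Nonempty V := Fintype.card_pos_iff.mp hV
  have h1 : ∀ ω, mixP X f ω * Real.log (mixP X f ω) ≤
      ∑ v : V, (1 / (Fintype.card V : ℝ)) *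
        (cE X (univ.erase v) f ω * Real.log (cE X (univ.erase v) f ω)) := by
    intro ω
    have hc := Real.convexOn_mul_log
    have := hc.map_sum_le (t := (univ : Finset V)) (w := fun _ => 1 / (Fintype.card V : ℝ))
      (p := fun v => cE X (univ.erase v) f ω) (by intro i _; positivity)
      (by rw [Finset.sum_const, nsmul_eq_mul, Finset.card_univ]; field_simp)
      (by intro i _; exact (mix_cE_pos X _ f hf ω).le)
    simp only [smul_eq_mul] at this
    have h2 : mixP X f ω = ∑ v : V, 1 / (Fintype.card V : ℝ) * cE X (univ.erase v) f ω := by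
      unfold mixP
      rw [Finset.sum_div]
      apply Finset.sum_congr rfl
      intro v _
      ring
    rw [h2]
    exact this
  have h3 : ∑ ω, mixP X f ω * Real.log (mixP X f ω) ≤
      (1 / (Fintype.card V : ℝ)) * ∑ v : V, hh X f (univ.erase v) := by
    calc ∑ ω, mixP X f ω * Real.log (mixP X f ω) ≤ ∑ ω, ∑ v : V, (1 / (Fintype.card V : ℝ)) *
        (cE X (univ.erase v) f ω * Real.log (cE X (univ.erase v) f ω)) :=
          Finset.sum_le_sum (fun ω _ => h1 ω)
      _ = (1 / (Fintype.card V : ℝ)) * ∑ v : V, hh X f (univ.erase v) := by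
          rw [Finset.sum_comm, Finset.mul_sum]
          apply Finset.sum_congr rfl
          intro v _
          rw [mix_hh_cE, Finset.mul_sum]
  have h4 := hfac f hf
  rw [mix_hh_empty X f hN hf1, sub_zero, Finset.sum_sub_distrib, Finset.sum_const, nsmul_eq_mul,
    Finset.card_univ] at h4
  rw [mix_hh_univ X hX] at h4
  set E := ∑ ω, f ω * Real.log (f ω) with hE
  set S := ∑ v : V, hh X f (univ.erase v) with hS
  set n : ℝ := (Fintype.card V : ℝ) with hn'
  have hC : 0 < C₁ := by linarith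
  calc ∑ ω, mixP X f ω * Real.log (mixP X f ω) ≤ (1 / n) * S := h3
    _ ≤ (1 - 1 / (C₁ * n)) * E := by
        have : S ≤ n * E - E / C₁ := by
          have : E / C₁ ≤ n * E - S := by
            rw [div_le_iff₀ hC]
            linarith
          linarith
        calc (1 / n) * S ≤ (1 / n) * (n * E - E / C₁) := by
              apply mul_le_mul_of_nonneg_left this; positivity
          _ = (1 - 1 / (C₁ * n)) * E := by field_simp

theorem mix_pinsker (f : Ω → ℝ) (hf : ∀ ω, 0 < f ω) (hf1 : ∑ ω, f ω = (Fintype.card Ω : ℝ)) :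
    (∑ ω, |f ω - 1|) ^ 2 ≤ 4 * (Fintype.card Ω : ℝ) * ∑ ω, f ω * Real.log (f ω) := by
  have h1 : ∀ ω, (Real.sqrt (f ω) - 1) ^ 2 ≤ f ω * Real.log (f ω) - f ω + 1 := by
    intro ω
    have hs : 0 < Real.sqrt (f ω) := Real.sqrt_pos.mpr (hf ω)
    have hs2 : Real.sqrt (f ω) ^ 2 = f ω := Real.sq_sqrt (hf ω).le
    have hl : Real.log (f ω) = 2 * Real.log (Real.sqrt (f ω)) := by
      conv_lhs => rw [← hs2]
      rw [Real.log_pow]; norm_num
    have h2 : 1 - (Real.sqrt (f ω))⁻¹ ≤ Real.log (Real.sqrt (f ω)) :=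
      Real.one_sub_inv_le_log_of_pos hs
    set s := Real.sqrt (f ω) with hs'
    rw [hl, ← hs2]
    have h3 : s ^ 2 * (1 - s⁻¹) ≤ s ^ 2 * Real.log s := mul_le_mul_of_nonneg_left h2 (by positivity)
    have h4 : s ^ 2 * (1 - s⁻¹) = s ^ 2 - s := by field_simp
    rw [h4] at h3
    nlinarith
  have h2 : ∀ ω, |f ω - 1| = |Real.sqrt (f ω) - 1| * |Real.sqrt (f ω) + 1| := by
    intro ω
    rw [← abs_mul]
    congr 1
    have hs2 : Real.sqrt (f ω) ^ 2 = f ω := Real.sq_sqrt (hf ω).le
    nlinarith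
  have h3 : (∑ ω, |f ω - 1|) ^ 2 ≤ (∑ ω, (Real.sqrt (f ω) - 1) ^ 2) *
      (∑ ω, (Real.sqrt (f ω) + 1) ^ 2) := by
    simp_rw [h2]
    have := Finset.sum_mul_sq_le_sq_mul_sq univ (fun ω => |Real.sqrt (f ω) - 1|)
      (fun ω => |Real.sqrt (f ω) + 1|)
    simpa only [sq_abs] using this
  have h4 : ∑ ω, (Real.sqrt (f ω) - 1) ^ 2 ≤ ∑ ω, f ω * Real.log (f ω) := by
    calc ∑ ω, (Real.sqrt (f ω) - 1) ^ 2 ≤ ∑ ω, (f ω * Real.log (f ω) - f ω + 1) :=
          Finset.sum_le_sum (fun ω _ => h1 ω)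
      _ = ∑ ω, f ω * Real.log (f ω) := by
          rw [Finset.sum_add_distrib, Finset.sum_sub_distrib, hf1]
          simp
  have h5 : ∑ ω, (Real.sqrt (f ω) + 1) ^ 2 ≤ 4 * (Fintype.card Ω : ℝ) := by
    calc ∑ ω, (Real.sqrt (f ω) + 1) ^ 2 ≤ ∑ ω, (2 * f ω + 2) := by
          apply Finset.sum_le_sum
          intro ω _
          have hs2 : Real.sqrt (f ω) ^ 2 = f ω := Real.sq_sqrt (hf ω).le
          nlinarith [sq_nonneg (Real.sqrt (f ω) - 1)]
      _ = 4 * (Fintype.card Ω : ℝ) := by
          rw [Finset.sum_add_distrib, ← Finset.mul_sum, hf1]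
          simp
          ring
  have h6 : 0 ≤ ∑ ω, (Real.sqrt (f ω) - 1) ^ 2 := Finset.sum_nonneg (fun ω _ => sq_nonneg _)
  have h7 : 0 ≤ ∑ ω, (Real.sqrt (f ω) + 1) ^ 2 := Finset.sum_nonneg (fun ω _ => sq_nonneg _)
  calc (∑ ω, |f ω - 1|) ^ 2 ≤ _ := h3
    _ ≤ (∑ ω, f ω * Real.log (f ω)) * (4 * (Fintype.card Ω : ℝ)) := by
        apply mul_le_mul h4 h5 h7 (le_trans h6 h4)
    _ = _ := by ring

end MixAux

section MixChain

variable {V : Type} [Fintype V] [DecidableEq V]

/-- number of colours of `avail` giving `τ`. -/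
theorem mix_filter_card (G : SimpleGraph V) (q : ℕ) (σ τ : PCol G q) (v : V) :
    ((avail G q σ v).filter (fun c => τ.1 = Function.update σ.1 v c)).card =
      if τ ∈ atom (fun σ : PCol G q => σ.1) (univ.erase v) σ then 1 else 0 := by
  classical
  by_cases h : τ ∈ atom (fun σ : PCol G q => σ.1) (univ.erase v) σ
  · rw [if_pos h]
    rw [mix_mem_atom] at h
    rw [Finset.card_eq_one]
    refine ⟨τ.1 v, ?_⟩
    ext c
    rw [Finset.mem_filter, Finset.mem_singleton]
    constructor
    · rintro ⟨_, h2⟩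
      rw [h2]; simp
    · intro hc
      subst hc
      constructor
      · unfold avail
        rw [Finset.mem_filter]
        refine ⟨Finset.mem_univ _, ?_⟩
        intro w hw hcon
        have hwv : w ≠ v := hw.ne'
        have h1 : τ.1 w = σ.1 w := h w (Finset.mem_erase.mpr ⟨hwv, Finset.mem_univ w⟩)
        rw [← h1] at hcon
        exact τ.2 w v hw.symm hcon
      · funext w
        by_cases hw : w = v
        · subst hw; simp
        · rw [Function.update_of_ne hw]
          exact h w (Finset.mem_erase.mpr ⟨hw, Finset.mem_univ w⟩)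
  · rw [if_neg h, Finset.card_eq_zero, Finset.filter_eq_empty_iff]
    intro c _ hc
    apply h
    rw [mix_mem_atom]
    intro w hw
    rw [hc, Function.update_of_ne (Finset.ne_of_mem_erase hw)]

theorem mix_avail_card (G : SimpleGraph V) (q : ℕ) (σ : PCol G q) (v : V) :
    (avail G q σ v).card = (atom (fun σ : PCol G q => σ.1) (univ.erase v) σ).card := by
  classical
  symm
  apply Finset.card_bij (fun (τ : PCol G q) _ => τ.1 v)
  · intro τ h
    rw [mix_mem_atom] at h
    unfold avail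
    rw [Finset.mem_filter]
    refine ⟨Finset.mem_univ _, ?_⟩
    intro w hw hcon
    have hwv : w ≠ v := hw.ne'
    have h1 : τ.1 w = σ.1 w := h w (Finset.mem_erase.mpr ⟨hwv, Finset.mem_univ w⟩)
    rw [← h1] at hcon
    exact τ.2 w v hw.symm hcon
  · intro τ h τ' h' he
    rw [mix_mem_atom] at h h'
    apply Subtype.ext
    funext w
    by_cases hw : w = v
    · subst hw; exact he
    · have h1 := h w (Finset.mem_erase.mpr ⟨hw, Finset.mem_univ w⟩)
      have h2 := h' w (Finset.mem_erase.mpr ⟨hw, Finset.mem_univ w⟩)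
      rw [h1, h2]
  · intro c hc
    unfold avail at hc
    rw [Finset.mem_filter] at hc
    have hprop : ∀ u w, G.Adj u w → Function.update σ.1 v c u ≠ Function.update σ.1 v c w := by
      intro u w huw
      by_cases hu : u = v
      · subst hu
        rw [Function.update_self, Function.update_of_ne huw.ne']
        exact (hc.2 w huw).symm
      · rw [Function.update_of_ne hu]
        by_cases hw : w = v
        · subst hw
          rw [Function.update_self]
          exact hc.2 u huw.symm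
        · rw [Function.update_of_ne hw]
          exact σ.2 u w huw
    refine ⟨⟨Function.update σ.1 v c, hprop⟩, ?_, ?_⟩
    · rw [mix_mem_atom]
      intro w hw
      simp only
      rw [Function.update_of_ne (Finset.ne_of_mem_erase hw)]
    · simp

theorem mix_P_apply (G : SimpleGraph V) (q : ℕ) (σ τ : PCol G q) :
    P G q σ τ = (∑ v : V, (if τ ∈ atom (fun σ : PCol G q => σ.1) (univ.erase v) σ then
      1 / ((atom (fun σ : PCol G q => σ.1) (univ.erase v) σ).card : ℝ) else 0)) /
        (Fintype.card V : ℝ) := by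
  unfold P
  rw [Matrix.of_apply]
  congr 1
  apply Finset.sum_congr rfl
  intro v _
  have h1 := mix_filter_card G q σ τ v
  have h2 := mix_avail_card G q σ v
  rw [h2]
  have h3 : (((avail G q σ v).filter (fun c => τ.1 = Function.update σ.1 v c)).card : ℝ) =
      if τ ∈ atom (fun σ : PCol G q => σ.1) (univ.erase v) σ then 1 else 0 := by
    have := congrArg (fun n : ℕ => (n : ℝ)) h1
    convert this using 1
    split_ifs <;> simp
  convert congrArg (fun x : ℝ => x / ((atom (fun σ : PCol G q => σ.1) (univ.erase v) σ).card : ℝ)) h3 using 1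
  split_ifs <;> simp

theorem mix_P_symm (G : SimpleGraph V) (q : ℕ) (σ τ : PCol G q) : P G q σ τ = P G q τ σ := by
  rw [mix_P_apply, mix_P_apply]
  congr 1
  apply Finset.sum_congr rfl
  intro v _
  by_cases h : τ ∈ atom (fun σ : PCol G q => σ.1) (univ.erase v) σ
  · rw [if_pos h, if_pos ((mix_symm _ _ _ _).mp h), mix_atom_eq _ _ _ _ h]
  · rw [if_neg h, if_neg (fun h' => h ((mix_symm _ _ _ _).mpr h'))]

theorem mix_P_mul (G : SimpleGraph V) (q : ℕ) (f : PCol G q → ℝ) (σ : PCol G q) :
    ∑ τ, P G q σ τ * f τ = mixP (fun σ : PCol G q => σ.1) f σ := by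
  unfold mixP
  simp_rw [mix_P_apply]
  simp_rw [div_mul_eq_mul_div]
  rw [← Finset.sum_div]
  congr 1
  simp_rw [Finset.sum_mul]
  rw [Finset.sum_comm]
  apply Finset.sum_congr rfl
  intro v _
  unfold cE
  rw [Finset.sum_div]
  simp_rw [ite_mul, zero_mul]
  rw [← Finset.sum_filter]
  have : univ.filter (fun τ => τ ∈ atom (fun σ : PCol G q => σ.1) (univ.erase v) σ) =
      atom (fun σ : PCol G q => σ.1) (univ.erase v) σ := by
    ext; simp
  rw [this]
  apply Finset.sum_congr rfl
  intro τ _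
  ring

end MixChain

/-- Entropy factorization implies optimal mixing of the Glauber dynamics. -/
theorem mixing (q : ℕ) (hq : 1 ≤ q) (C₁ : ℝ) (hC₁ : 1 ≤ C₁) :
    ∃ C₂ : ℝ, 0 < C₂ ∧ ∀ (V : Type) [Fintype V] [DecidableEq V] (G : SimpleGraph V),
      2 ≤ Fintype.card V → Nonempty (PCol G q) →
      (∀ f : PCol G q → ℝ, (∀ σ, 0 < f σ) →
        hh (fun σ : PCol G q => σ.1) f univ - hh (fun σ : PCol G q => σ.1) f ∅ ≤
          C₁ * ∑ v, (hh (fun σ : PCol G q => σ.1) f univ -
            hh (fun σ : PCol G q => σ.1) f (univ.erase v))) →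
      ∀ t : ℕ, C₂ * (Fintype.card V : ℝ) * Real.log (Fintype.card V) ≤ t →
        ∀ σ : PCol G q, tv ((P G q ^ t) σ) (unif G q) ≤ 1 / 4 := by
  have hlq : 0 ≤ Real.log q := Real.log_nonneg (by exact_mod_cast hq)
  set K : ℝ := 64 * (Real.log q + 1) with hK
  have hK1 : 1 ≤ K := by rw [hK]; linarith
  have hlK : 0 ≤ Real.log K := Real.log_nonneg hK1
  have hl2 : 0 < Real.log 2 := Real.log_pos (by norm_num)
  have hC₁p : 0 < C₁ := by linarith
  refine ⟨C₁ * (1 + Real.log K / Real.log 2), by positivity, ?_⟩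
  intro V _ _ G hV hne hfac t ht σ
  classical
  set X : PCol G q → V → Fin q := fun σ => σ.1 with hX
  have hXinj : Function.Injective X := Subtype.val_injective
  have hN : 0 < Fintype.card (PCol G q) := Fintype.card_pos
  have hV0 : 0 < Fintype.card V := by omega
  set N : ℝ := (Fintype.card (PCol G q) : ℝ) with hN'
  set n : ℝ := (Fintype.card V : ℝ) with hn'
  have hNp : 0 < N := by rw [hN']; exact_mod_cast hN
  have hN1 : 1 ≤ N := by rw [hN']; exact_mod_cast hN
  have hn2 : 2 ≤ n := by rw [hn']; exact_mod_cast hV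
  have hnp : 0 < n := by linarith
  -- the densities
  let h : ℕ → PCol G q → ℝ := fun t τ => (P G q ^ t) σ τ
  let F : ℕ → PCol G q → ℝ := fun t τ => (1 + N * h t τ) / 2
  have hstep : ∀ t τ, h (t + 1) τ = mixP X (h t) τ := by
    intro t τ
    rw [hX, ← mix_P_mul]
    show (P G q ^ (t + 1)) σ τ = ∑ τ', P G q τ τ' * (P G q ^ t) σ τ'
    rw [pow_succ, Matrix.mul_apply]
    apply Finset.sum_congr rfl
    intro τ' _
    rw [mix_P_symm G q τ' τ]
    ring
  have hcEone : ∀ (v : V) (a b : ℝ) (g : PCol G q → ℝ) (τ : PCol G q),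
      cE X (univ.erase v) (fun ξ => a + b * g ξ) τ = a + b * cE X (univ.erase v) g τ := by
    intro v a b g τ
    unfold cE
    rw [Finset.sum_add_distrib, Finset.sum_const, nsmul_eq_mul, ← Finset.mul_sum]
    have := mix_card_pos X (univ.erase v) τ
    field_simp
  have hFstep : ∀ t τ, F (t + 1) τ = mixP X (F t) τ := by
    intro t τ
    have h1 : F t = fun ξ => 1 / 2 + (N / 2) * h t ξ := by
      funext ξ
      simp only [F]
      ring
    rw [h1]
    unfold mixP
    simp_rw [hcEone]
    rw [Finset.sum_add_distrib, Finset.sum_const, nsmul_eq_mul, ← Finset.mul_sum, Finset.card_univ]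
    simp only [F]
    rw [hstep]
    unfold mixP
    rw [← hn']
    field_simp
  have hF0sum : ∑ τ, F 0 τ = N := by
    simp only [F, h, pow_zero]
    rw [← Finset.sum_div, Finset.sum_add_distrib, ← Finset.mul_sum]
    simp only [Matrix.one_apply, Finset.sum_ite_eq, Finset.mem_univ, if_true, Finset.sum_const,
      nsmul_eq_mul, Finset.card_univ]
    rw [← hN']
    ring
  have hF0pos : ∀ τ, 0 < F 0 τ := by
    intro τ
    simp only [F, h, pow_zero, Matrix.one_apply]
    split_ifs
    · linarith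
    · norm_num
  have hFpos : ∀ t τ, 0 < F t τ := by
    intro t
    induction t with
    | zero => exact hF0pos
    | succ t ih =>
      intro τ
      rw [hFstep]
      exact mixP_pos X hV0 (F t) ih τ
  have hFsum : ∀ t, ∑ τ, F t τ = N := by
    intro t
    induction t with
    | zero => exact hF0sum
    | succ t ih =>
      simp_rw [hFstep]
      rw [mixP_sum X hV0, ih]
  -- entropy decay
  have hrate : 0 ≤ 1 - 1 / (C₁ * n) := by
    have : 1 / (C₁ * n) ≤ 1 := by
      rw [div_le_one (by positivity)]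
      nlinarith
    linarith
  have hE0 : ∑ τ, F 0 τ * Real.log (F 0 τ) ≤ N * (n * Real.log q) := by
    have hNle : N ≤ (q : ℝ) ^ (Fintype.card V) := by
      rw [hN']
      have h1 : Fintype.card (PCol G q) ≤ Fintype.card (V → Fin q) :=
        Fintype.card_le_of_injective X hXinj
      rw [Fintype.card_fun, Fintype.card_fin] at h1
      exact_mod_cast h1
    have hlogN : Real.log N ≤ n * Real.log q := by
      calc Real.log N ≤ Real.log ((q : ℝ) ^ (Fintype.card V)) := Real.log_le_log hNp hNle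
        _ = n * Real.log q := by rw [Real.log_pow]
    have hle : ∀ τ, F 0 τ ≤ N := by
      intro τ
      simp only [F, h, pow_zero, Matrix.one_apply]
      split_ifs
      · linarith
      · linarith
    calc ∑ τ, F 0 τ * Real.log (F 0 τ) ≤ ∑ τ, F 0 τ * Real.log N := by
          apply Finset.sum_le_sum
          intro τ _
          apply mul_le_mul_of_nonneg_left _ (hF0pos τ).le
          exact Real.log_le_log (hF0pos τ) (hle τ)
      _ = N * Real.log N := by rw [← Finset.sum_mul, hF0sum]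
      _ ≤ N * (n * Real.log q) := mul_le_mul_of_nonneg_left hlogN hNp.le
  have hEt : ∀ t : ℕ, ∑ τ, F t τ * Real.log (F t τ) ≤
      (1 - 1 / (C₁ * n)) ^ t * (N * (n * Real.log q)) := by
    intro t
    induction t with
    | zero => simpa using hE0
    | succ t ih =>
      have h1 := mix_step X hXinj hN hV0 C₁ hC₁ hfac (F t) (hFpos t) (hFsum t)
      have h2 : ∑ τ, F (t + 1) τ * Real.log (F (t + 1) τ) =
          ∑ ω, mixP X (F t) ω * Real.log (mixP X (F t) ω) := by
        apply Finset.sum_congr rfl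
        intro τ _
        rw [hFstep]
      rw [h2]
      calc _ ≤ _ := h1
        _ ≤ (1 - 1 / (C₁ * n)) * ((1 - 1 / (C₁ * n)) ^ t * (N * (n * Real.log q))) :=
            mul_le_mul_of_nonneg_left ih hrate
        _ = _ := by ring
  -- the final estimate
  have hexp : (1 - 1 / (C₁ * n)) ^ t ≤ 1 / (n * K) := by
    have h1 : 1 - 1 / (C₁ * n) ≤ Real.exp (-(1 / (C₁ * n))) := by
      have := Real.add_one_le_exp (-(1 / (C₁ * n)))
      linarith
    have h2 : (1 - 1 / (C₁ * n)) ^ t ≤ Real.exp (-(1 / (C₁ * n))) ^ t :=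
      pow_le_pow_left₀ hrate h1 t
    rw [← Real.exp_nat_mul] at h2
    refine le_trans h2 ?_
    have h3 : (t : ℝ) * -(1 / (C₁ * n)) ≤ -(Real.log n + Real.log K) := by
      have h4 : Real.log n + Real.log K ≤ (t : ℝ) / (C₁ * n) := by
        rw [le_div_iff₀ (by positivity)]
        have hln : Real.log 2 ≤ Real.log n := Real.log_le_log (by norm_num) hn2
        have h5 : Real.log n + Real.log K ≤ (1 + Real.log K / Real.log 2) * Real.log n := by
          have : Real.log K ≤ Real.log K / Real.log 2 * Real.log n := by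
            rw [div_mul_eq_mul_div, le_div_iff₀ hl2]
            exact mul_le_mul_of_nonneg_left hln hlK
          linarith
        calc (Real.log n + Real.log K) * (C₁ * n) ≤
            ((1 + Real.log K / Real.log 2) * Real.log n) * (C₁ * n) :=
              mul_le_mul_of_nonneg_right h5 (by positivity)
          _ = C₁ * (1 + Real.log K / Real.log 2) * n * Real.log n := by ring
          _ ≤ t := ht
      have : (t : ℝ) * -(1 / (C₁ * n)) = -((t : ℝ) / (C₁ * n)) := by ring
      rw [this]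
      linarith
    calc Real.exp ((t : ℝ) * -(1 / (C₁ * n))) ≤ Real.exp (-(Real.log n + Real.log K)) :=
          Real.exp_le_exp.mpr h3
      _ = 1 / (n * K) := by
          rw [Real.exp_neg, Real.exp_add, Real.exp_log hnp, Real.exp_log (by linarith)]
          simp
  have hEfin : ∑ τ, F t τ * Real.log (F t τ) ≤ N / 64 := by
    calc ∑ τ, F t τ * Real.log (F t τ) ≤ (1 - 1 / (C₁ * n)) ^ t * (N * (n * Real.log q)) := hEt t
      _ ≤ (1 / (n * K)) * (N * (n * Real.log q)) :=
          mul_le_mul_of_nonneg_right hexp (by positivity)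
      _ = N * (Real.log q / K) := by
          have : K ≠ 0 := by linarith
          field_simp
      _ ≤ N * (1 / 64) := by
          apply mul_le_mul_of_nonneg_left _ hNp.le
          rw [div_le_div_iff₀ (by linarith) (by norm_num)]
          rw [hK]
          linarith
      _ = N / 64 := by ring
  have hpin := mix_pinsker (F t) (hFpos t) (hFsum t)
  rw [← hN'] at hpin
  have hsum : ∑ τ, |F t τ - 1| ≤ N / 4 := by
    have h1 : (∑ τ, |F t τ - 1|) ^ 2 ≤ (N / 4) ^ 2 := by
      calc (∑ τ, |F t τ - 1|) ^ 2 ≤ 4 * N * ∑ τ, F t τ * Real.log (F t τ) := hpin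
        _ ≤ 4 * N * (N / 64) := mul_le_mul_of_nonneg_left hEfin (by positivity)
        _ = (N / 4) ^ 2 := by ring
    exact (sq_le_sq₀ (Finset.sum_nonneg (fun τ _ => abs_nonneg _)) (by positivity)).mp h1
  unfold tv
  have h1 : ∀ τ, |(P G q ^ t) σ τ - unif G q τ| = (2 / N) * |F t τ - 1| := by
    intro τ
    have h2 : (P G q ^ t) σ τ - unif G q τ = (2 / N) * (F t τ - 1) := by
      simp only [F, h, unif]
      rw [← hN']
      field_simp
      ring
    rw [h2, abs_mul, abs_of_pos (by positivity)]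
  simp_rw [h1]
  rw [← Finset.mul_sum]
  have h2 : 2 / N * ∑ τ, |F t τ - 1| ≤ 2 / N * (N / 4) :=
    mul_le_mul_of_nonneg_left hsum (by positivity)
  have h3 : 2 / N * (N / 4) = 1 / 2 := by field_simp; norm_num
  linarith

end Pool.Agent.H983R2.GC
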